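import Pool.Agent.E8helper36.CF.Stm

/-!
# Project CF (MP_717b2e_co): a matching without diameters has a rotation with short linear lengths
-/

set_option autoImplicit false

namespace Pool.Agent.E8helper69.CF

open Pool.Agent.E8helper36.CF

lemma sh_val_le {n s : ℕ} {k : Fin (2 * n)} (h : (k : ℕ) + s < 2 * n) :
    ((sh n s k : Fin (2 * n)) : ℕ) = k + s := Nat.mod_eq_of_lt h

lemma sh_val_gt {n s : ℕ} {k : Fin (2 * n)} (h : 2 * n ≤ (k : ℕ) + s) (hs : s < 2 * n) :
    ((sh n s k : Fin (2 * n)) : ℕ) + 2 * n = k + s := by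
  have hk := k.2
  have h1 : ((sh n s k : Fin (2 * n)) : ℕ) = (k + s) % (2 * n) := rfl
  rw [h1, Nat.mod_eq_sub_mod h, Nat.mod_eq_of_lt (by omega)]
  omega

lemma sh_surj {n s : ℕ} (hs : s < 2 * n) (x : Fin (2 * n)) : ∃ k, sh n s k = x := by
  have hx := x.2
  by_cases h : s ≤ x
  · refine ⟨⟨x - s, by omega⟩, Fin.ext ?_⟩
    rw [sh_val_le (by simp only; omega)]
    simp only
    omega
  · refine ⟨⟨x + 2 * n - s, by omega⟩, Fin.ext ?_⟩
    have := sh_val_gt (n := n) (s := s) (k := ⟨x + 2 * n - s, by omega⟩) (by simp only; omega) hs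
    simp only at this
    omega

theorem t_NRM : S_NRM := by
  intro n _ M hD
  by_cases hN : Nrm M
  · refine ⟨0, fun M' h i => ?_⟩
    have hs : ∀ x : Fin (2 * n), sh n 0 x = x := fun x => Fin.ext (by rw [sh_val_le x.2]; rfl)
    have h1 := h i
    rw [hs, hs] at h1
    rw [h1]
    exact hN i
  · unfold Nrm at hN
    push Not at hN
    obtain ⟨i0, hi0⟩ := hN
    obtain ⟨i, hi, hmax⟩ := Finset.exists_max_image
      (Finset.univ.filter (fun i : Fin (2 * n) => (i : ℕ) + n ≤ (M.m i : ℕ))) (fun i => (i : ℕ))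
      ⟨i0, Finset.mem_filter.2 ⟨Finset.mem_univ _, hi0⟩⟩
    have hi1 : (i : ℕ) + n ≤ (M.m i : ℕ) := (Finset.mem_filter.1 hi).2
    have hne : ∀ k : Fin (2 * n), (M.m k : ℕ) ≠ k + n := fun k hk => hD ⟨k, hk⟩
    have hi2 : (i : ℕ) + n < (M.m i : ℕ) := lt_of_le_of_ne hi1 (fun h => hne i h.symm)
    have hmax' : ∀ k : Fin (2 * n), (i : ℕ) < k → (M.m k : ℕ) < k + n := by
      intro k hk
      by_contra hc
      have := hmax k (Finset.mem_filter.2 ⟨Finset.mem_univ _, not_lt.1 hc⟩)
      omega
    have hmi := (M.m i).2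
    have hs : 2 * n - 1 - (i : ℕ) < 2 * n := by omega
    refine ⟨2 * n - 1 - i, fun M' h x => ?_⟩
    obtain ⟨k, rfl⟩ := sh_surj hs x
    rw [h k]
    have hk := k.2
    have hl := (M.m k).2
    have hnk := hne k
    rcases le_or_gt (k : ℕ) i with h1 | h1
    · rw [sh_val_le (k := k) (by omega)]
      rcases le_or_gt (M.m k : ℕ) i with h2 | h2
      · rw [sh_val_le (by omega)]
        omega
      · have := sh_val_gt (n := n) (s := 2 * n - 1 - i) (k := M.m k) (by omega) hs
        omega
    · have h3 := sh_val_gt (n := n) (s := 2 * n - 1 - i) (k := k) (by omega) hs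
      rcases le_or_gt (M.m k : ℕ) i with h2 | h2
      · rw [sh_val_le (k := M.m k) (by omega)]
        have h5 : ((M.m k : Fin (2 * n)) : ℕ) + n < k := by
          rcases eq_or_lt_of_le h2 with h6 | h6
          · have h7 : M.m k = i := Fin.ext h6
            have h8 : M.m i = k := by rw [← h7, M.inv]
            rw [h7, ← h8]
            exact hi2
          · have h7 := M.nc (M.m k) i h6 (by rw [M.inv]; exact h1)
            rw [M.inv] at h7
            have h8 : (M.m i : ℕ) ≤ k := not_lt.1 h7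
            omega
        omega
      · have h4 := sh_val_gt (n := n) (s := 2 * n - 1 - i) (k := M.m k) (by omega) hs
        have h5 := hmax' k h1
        omega

end Pool.Agent.E8helper69.CF
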